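import Pool.Agent.H27.L1.H76.GU.Targets

/-!
# Row FTH of the board gu (MP_52e316_nt): cusp forms against the skewness
-/

set_option autoImplicit false

namespace Pool.Agent.H27.L1.H11.GU

open MeasureTheory Pool.Agent.H27.L1.H34.GM Pool.Agent.H27.L1.H34.GZ Pool.Agent.H27.L1.H34.GU Pool.Agent.H27.L1.H76.GU

theorem fth_det {m : ℕ} {z : Mat m} (h : 1 ≤ aN z) (hm : 1 ≤ m) : z.det ≠ 0 := by
  intro h0
  have h1 : aN z = 0 := by
    unfold aN
    rw [h0, abs_zero]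
    apply Real.zero_rpow
    have : (0 : ℝ) < m := by exact_mod_cast hm
    positivity
  rw [h1] at h
  linarith

theorem fth_mono {m : ℕ} (D : Set (V m)) {Y Y' : ℝ} (h : Y ≤ Y') : DY D Y ⊆ DY D Y' := by
  rintro z ⟨hz, h1⟩
  refine ⟨hz, ?_⟩
  intro γ hγ n a k hS i j hij
  refine (h1 γ hγ n a k hS i j hij).trans ?_
  exact mul_le_mul_of_nonneg_right h (hS.pos i).le

theorem fth_sum (K : ℕ) : Summable fun n : ℕ => (1 + Real.log (2 ^ (n + 1))) ^ K * (1 / 2 ^ n) := by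
  have h1 : Summable fun n : ℕ => ((n : ℝ)) ^ K * (1 / 2 : ℝ) ^ n :=
    summable_pow_mul_geometric_of_norm_lt_one K (by norm_num)
  have h2 := (summable_nat_add_iff 2).2 h1
  have h3 := h2.mul_left 4
  refine Summable.of_nonneg_of_le ?_ ?_ h3
  · intro n
    have : 0 ≤ Real.log ((2 : ℝ) ^ (n + 1)) := Real.log_nonneg (one_le_pow₀ (by norm_num))
    positivity
  · intro n
    have h4 : 0 ≤ Real.log ((2 : ℝ) ^ (n + 1)) := Real.log_nonneg (one_le_pow₀ (by norm_num))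
    have h5 : Real.log ((2 : ℝ) ^ (n + 1)) ≤ (n : ℝ) + 1 := by
      rw [Real.log_pow]
      have : Real.log 2 ≤ 1 := by
        have := Real.log_two_lt_d9
        linarith
      push_cast
      nlinarith
    have h6 : (1 + Real.log ((2 : ℝ) ^ (n + 1))) ^ K ≤ ((n + 2 : ℕ) : ℝ) ^ K := by
      refine pow_le_pow_left₀ (by linarith) ?_ K
      push_cast
      linarith
    have e : (4 : ℝ) * (((n + 2 : ℕ) : ℝ) ^ K * (1 / 2) ^ (n + 2)) =
        ((n + 2 : ℕ) : ℝ) ^ K * (1 / 2 ^ n) := by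
      rw [pow_add, one_div_pow, one_div_pow]
      ring
    rw [e]
    exact mul_le_mul_of_nonneg_right h6 (by positivity)

theorem pf_FTH (hDC : T_DC1) (hVLM : T_VLM) (hDYM : T_DYM) : T_FTH := by
  intro m N _ T D hS F lam mu hF
  obtain ⟨C0, hC0, hdc⟩ := hDC m N T D hS F lam mu hF
  obtain ⟨B, hB⟩ := hF.bdd
  obtain ⟨C, K, hC, hV⟩ := hVLM m hS.one_le
  obtain ⟨-, hV2⟩ := hV D hS.dom
  have hdet : ∀ z ∈ D, (mt z).det ≠ 0 := fun z hz => fth_det (hS.dom.shell z hz).1 hS.one_le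
  -- the decay
  have hdecay : ∀ Y : ℝ, 0 < Y → ∀ z ∈ D, z ∉ DY D Y → ∀ x, ‖F (mt z) x‖ ≤ C0 / Y := by
    intro Y hY z hz hzY x
    have h1 : ¬ ∀ γ : ZM m, IsUnit γ → ∀ (n : Mat m) (a : Fin m → ℝ) (k : Mat m),
        Sgl (cR γ * mt z) n a k → ∀ i j : Fin m, (i : ℕ) + 1 = j → a j ≤ Y * a i :=
      fun h => hzY ⟨hz, h⟩
    simp only [not_forall] at h1
    obtain ⟨γ, hγ, n, a, k, hS', i, j, hij, hlt⟩ := h1
    have hlt' : Y * a i < a j := not_le.1 hlt
    have h2 := hF.auto γ hγ (mt z) x (hdet z hz)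
    have h3 := hdc (cR γ * mt z) n a k hS' i j hij (ac N γ x)
    rw [h2] at h3
    refine h3.trans ?_
    rw [div_eq_mul_inv C0]
    refine mul_le_mul_of_nonneg_left ?_ hC0
    have hj : 0 < a j := hS'.pos j
    rw [div_le_iff₀ hj, inv_mul_eq_div, le_div_iff₀ hY]
    linarith
  set C1 : ℝ := max B C0 with hC1
  have hC1B : B ≤ C1 := le_max_left _ _
  have hC1C : C0 ≤ C1 := le_max_right _ _
  have hC10 : 0 ≤ C1 := hC0.trans hC1C
  refine ENNReal.sum_lt_top.2 fun x _ => ?_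
  set f : V m → ENNReal := fun z => Tht (mt z) * ENNReal.ofReal ‖F (mt z) x‖ with hf
  -- the shells
  let S : ℕ → Set (V m) := fun k => {z | z ∈ DY D (2 ^ (k + 1)) ∧ (k = 0 ∨ z ∉ DY D (2 ^ k))}
  have hSm : ∀ k, MeasurableSet (S k) := by
    intro k
    refine MeasurableSet.inter (hDYM m D hS.dom _) ?_
    refine MeasurableSet.union (MeasurableSet.const _) ?_
    exact (hDYM m D hS.dom _).compl
  let R : Set (V m) := D \ ⋃ k, S k
  have hRm : MeasurableSet R := hS.dom.meas.diff (MeasurableSet.iUnion hSm)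
  have hcov : D ⊆ (⋃ k, S k) ∪ R := by
    intro z hz
    by_cases h : z ∈ ⋃ k, S k
    · exact Or.inl h
    · exact Or.inr ⟨hz, h⟩
  have hR0 : ∀ z ∈ R, f z = 0 := by
    rintro z ⟨hz, hzS⟩
    have h1 : ∀ k : ℕ, z ∉ DY D (2 ^ (k + 1)) := by
      intro k
      induction k with
      | zero =>
        intro h
        exact hzS (Set.mem_iUnion.2 ⟨0, h, Or.inl rfl⟩)
      | succ k ih =>
        intro h
        exact hzS (Set.mem_iUnion.2 ⟨k + 1, h, Or.inr ih⟩)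
    have h2 : ∀ k : ℕ, ‖F (mt z) x‖ ≤ C0 / 2 ^ (k + 1) := fun k =>
      hdecay _ (by positivity) z hz (h1 k) x
    have h3 : Filter.Tendsto (fun k : ℕ => C0 / 2 ^ (k + 1)) Filter.atTop (nhds 0) := by
      have h4 : Filter.Tendsto (fun k : ℕ => C0 * (1 / 2 : ℝ) ^ k) Filter.atTop (nhds (C0 * 0)) :=
        (tendsto_pow_atTop_nhds_zero_of_lt_one (by norm_num) (by norm_num)).const_mul C0
      rw [mul_zero] at h4
      have h5 := (Filter.tendsto_add_atTop_iff_nat 1).2 h4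
      refine h5.congr fun k => ?_
      rw [one_div_pow]
      ring
    have h4 : ‖F (mt z) x‖ ≤ 0 := ge_of_tendsto' h3 h2
    have h5 : ‖F (mt z) x‖ = 0 := le_antisymm h4 (norm_nonneg _)
    show Tht (mt z) * ENNReal.ofReal ‖F (mt z) x‖ = 0
    rw [h5, ENNReal.ofReal_zero, mul_zero]
  have hSb : ∀ k, ∫⁻ z in S k, f z ∂(hm m) ≤
      ENNReal.ofReal (C * C1 * ((1 + Real.log (2 ^ (k + 1))) ^ K * (1 / 2 ^ k))) := by
    intro k
    have h1 : ∀ z ∈ S k, f z ≤ Tht (mt z) * ENNReal.ofReal (C1 / 2 ^ k) := by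
      rintro z ⟨hz1, hz2⟩
      refine mul_le_mul' le_rfl (ENNReal.ofReal_le_ofReal ?_)
      rcases Nat.eq_zero_or_pos k with h0 | h0
      · subst h0
        rw [pow_zero, div_one]
        exact (hB _ _ (hdet z hz1.1)).trans hC1B
      · have hz3 : z ∉ DY D (2 ^ k) := by
          rcases hz2 with h | h
          · omega
          · exact h
        refine (hdecay _ (by positivity) z hz1.1 hz3 x).trans ?_
        exact div_le_div_of_nonneg_right hC1C (by positivity)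
    have h2 : (2 : ℝ) ≤ 2 ^ (k + 1) := by
      rw [pow_succ]
      have : (1 : ℝ) ≤ 2 ^ k := one_le_pow₀ (by norm_num)
      linarith
    calc ∫⁻ z in S k, f z ∂(hm m)
        ≤ ∫⁻ z in S k, Tht (mt z) * ENNReal.ofReal (C1 / 2 ^ k) ∂(hm m) :=
          setLIntegral_mono' (hSm k) h1
      _ = (∫⁻ z in S k, Tht (mt z) ∂(hm m)) * ENNReal.ofReal (C1 / 2 ^ k) :=
          lintegral_mul_const' _ _ ENNReal.ofReal_ne_top
      _ ≤ (∫⁻ z in DY D (2 ^ (k + 1)), Tht (mt z) ∂(hm m)) * ENNReal.ofReal (C1 / 2 ^ k) := by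
          refine mul_le_mul' ?_ le_rfl
          exact lintegral_mono_set fun z hz => hz.1
      _ ≤ ENNReal.ofReal (C * (1 + Real.log (2 ^ (k + 1))) ^ K) *
            ENNReal.ofReal (C1 / 2 ^ k) := mul_le_mul' (hV2 _ h2) le_rfl
      _ = _ := by
          have h4 : 0 ≤ Real.log ((2 : ℝ) ^ (k + 1)) :=
            Real.log_nonneg (one_le_pow₀ (by norm_num))
          rw [← ENNReal.ofReal_mul (by positivity)]
          congr 1
          ring
  have hsum : Summable fun k : ℕ =>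
      C * C1 * ((1 + Real.log (2 ^ (k + 1))) ^ K * (1 / 2 ^ k)) := (fth_sum K).mul_left _
  calc ∫⁻ z in D, f z ∂(hm m)
      ≤ ∫⁻ z in (⋃ k, S k) ∪ R, f z ∂(hm m) := lintegral_mono_set hcov
    _ ≤ ∫⁻ z in (⋃ k, S k), f z ∂(hm m) + ∫⁻ z in R, f z ∂(hm m) := lintegral_union_le _ _ _
    _ = ∫⁻ z in (⋃ k, S k), f z ∂(hm m) := by
        rw [setLIntegral_congr_fun hRm (fun z hz => hR0 z hz), lintegral_zero, add_zero]
    _ ≤ ∑' k, ∫⁻ z in S k, f z ∂(hm m) := lintegral_iUnion_le _ _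
    _ ≤ ∑' k, ENNReal.ofReal (C * C1 * ((1 + Real.log (2 ^ (k + 1))) ^ K * (1 / 2 ^ k))) :=
        ENNReal.tsum_le_tsum hSb
    _ < ⊤ := hsum.tsum_ofReal_lt_top

end Pool.Agent.H27.L1.H11.GU
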